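import Pool.Agent.helper14.AV.Spec

/-!
# AV, row AMX: angular extremes (helper90)
-/

set_option autoImplicit false

namespace Pool.Agent.helper14.AV

/-- The identity behind the comparison. -/
theorem AMX_id (p r z w : ℝ × ℝ) :
    ((r.1 - p.1) ^ 2 + (r.2 - p.2) ^ 2) * D p z w =
      ((z.1 - p.1) * (r.1 - p.1) + (z.2 - p.2) * (r.2 - p.2)) * D p r w -
        ((w.1 - p.1) * (r.1 - p.1) + (w.2 - p.2) * (r.2 - p.2)) * D p r z := by
  unfold D
  ring

/-- One comparison. -/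
theorem AMX_le (p r z w : ℝ × ℝ) (hz : 0 < D p r z) (hw : 0 < D p r w)
    (h : ((w.1 - p.1) * (r.1 - p.1) + (w.2 - p.2) * (r.2 - p.2)) / D p r w ≤
      ((z.1 - p.1) * (r.1 - p.1) + (z.2 - p.2) * (r.2 - p.2)) / D p r z) : 0 ≤ D p z w := by
  have hu : 0 < (r.1 - p.1) ^ 2 + (r.2 - p.2) ^ 2 := by
    rcases eq_or_ne (r.1 - p.1) 0 with h1 | h1
    · rcases eq_or_ne (r.2 - p.2) 0 with h2 | h2
      · exfalso
        unfold D at hz
        rw [h1, h2] at hz
        simp at hz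
      · have : 0 < (r.2 - p.2) ^ 2 := by positivity
        have h3 := sq_nonneg (r.1 - p.1)
        linarith
    · have : 0 < (r.1 - p.1) ^ 2 := by positivity
      have h3 := sq_nonneg (r.2 - p.2)
      linarith
  rw [div_le_div_iff₀ hw hz] at h
  have e := AMX_id p r z w
  have : 0 ≤ ((r.1 - p.1) ^ 2 + (r.2 - p.2) ^ 2) * D p z w := by
    rw [e]
    linarith
  exact nonneg_of_mul_nonneg_right this hu

theorem AMX_anti (p z w : ℝ × ℝ) : D p w z = - D p z w := by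
  unfold D
  ring

theorem AMX : AMX_stmt := by
  intro Z p r hne hpos hdiff
  refine ⟨?_, ?_⟩
  · obtain ⟨X, hX, hmax⟩ := Finset.exists_max_image Z (fun z : ℝ × ℝ =>
      ((z.1 - p.1) * (r.1 - p.1) + (z.2 - p.2) * (r.2 - p.2)) / D p r z) hne
    refine ⟨X, hX, fun z hz hzX => ?_⟩
    have h := AMX_le p r X z (hpos X hX) (hpos z hz) (hmax z hz)
    exact lt_of_le_of_ne h (Ne.symm (hdiff X hX z hz (Ne.symm hzX)))
  · obtain ⟨Y, hY, hmin⟩ := Finset.exists_min_image Z (fun z : ℝ × ℝ =>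
      ((z.1 - p.1) * (r.1 - p.1) + (z.2 - p.2) * (r.2 - p.2)) / D p r z) hne
    refine ⟨Y, hY, fun z hz hzY => ?_⟩
    have h := AMX_le p r z Y (hpos z hz) (hpos Y hY) (hmin z hz)
    have h2 : 0 < D p z Y := lt_of_le_of_ne h (Ne.symm (hdiff z hz Y hY hzY))
    rw [AMX_anti p z Y]
    linarith

end Pool.Agent.helper14.AV
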