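import Pool.Agent.helper14.AV.Spec3

/-!
# AV, row SG1: connecting edges and segments (helper90)
-/

set_option autoImplicit false

namespace Pool.Agent.helper14.AV

theorem SG1_aff (a b p q : ℝ × ℝ) (α β : ℝ) (h : α + β = 1) :
    D a b (α • p + β • q) = α * D a b p + β * D a b q := by
  unfold D
  simp only [Prod.fst_add, Prod.snd_add, Prod.smul_fst, Prod.smul_snd, smul_eq_mul]
  linear_combination ((b.1 - a.1) * a.2 - (b.2 - a.2) * a.1) * h

theorem SG1_zl (a b : ℝ × ℝ) : D a b a = 0 := by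
  unfold D
  ring

theorem SG1_zr (a b : ℝ × ℝ) : D a b b = 0 := by
  unfold D
  ring

/-- `D a b` is zero on the segment `a b`. -/
theorem SG1_z (a b z : ℝ × ℝ) (hz : z ∈ segment ℝ a b) : D a b z = 0 := by
  obtain ⟨α, β, hα, hβ, h, rfl⟩ := hz
  rw [SG1_aff a b a b α β h, SG1_zl, SG1_zr]
  ring

/-- `D a b` is zero on a segment with zero values at the ends. -/
theorem SG1_z2 (a b p q z : ℝ × ℝ) (hp : D a b p = 0) (hq : D a b q = 0)
    (hz : z ∈ segment ℝ p q) : D a b z = 0 := by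
  obtain ⟨α, β, hα, hβ, h, rfl⟩ := hz
  rw [SG1_aff a b p q α β h, hp, hq]
  ring

/-- Constant sign on a segment. -/
theorem SG1_pos (a b p q z : ℝ × ℝ) (s : ℝ) (hp : 0 < s * D a b p) (hq : 0 < s * D a b q)
    (hz : z ∈ segment ℝ p q) : 0 < s * D a b z := by
  obtain ⟨α, β, hα, hβ, h, rfl⟩ := hz
  rw [SG1_aff a b p q α β h]
  have e : s * (α * D a b p + β * D a b q) = α * (s * D a b p) + β * (s * D a b q) := by ring
  rw [e]
  rcases eq_or_lt_of_le hα with h0 | h0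
  · have hβ1 : β = 1 := by linarith
    rw [← h0, hβ1]
    linarith
  · have h1 : 0 < α * (s * D a b p) := mul_pos h0 hp
    have h2 : 0 ≤ β * (s * D a b q) := mul_nonneg hβ hq.le
    linarith

theorem SG1_mem {ι : Type} (P Q A B : ι → ℝ × ℝ) (hSDD : SDD_stmt) (hS : Short P Q A B)
    (x : ι × Bool) : st A B x ∈ segment ℝ (P x.1) (Q x.1) ∧ fn A B x ∈ segment ℝ (P x.1) (Q x.1) := by
  obtain ⟨c, -, -, hA, hB⟩ := hSDD ι P Q A B hS x.1
  unfold st fn
  constructor
  · by_cases h : x.2 = true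
    · rw [if_pos h]; exact hA
    · rw [if_neg h]; exact hB
  · by_cases h : x.2 = true
    · rw [if_pos h]; exact hB
    · rw [if_neg h]; exact hA

theorem SG1_sgn {ι : Type} (P Q : ι → ℝ × ℝ) (hN : NSd P Q) (u i : ι) (hui : u ≠ i)
    (X : ℝ × ℝ) (hX : X ∈ segment ℝ (P i) (Q i)) : 0 < D (P u) (Q u) (P i) * D (P u) (Q u) X := by
  have h := hN u i hui
  have hne : D (P u) (Q u) (P i) ≠ 0 := fun h0 => by rw [h0, zero_mul] at h; exact lt_irrefl _ h
  exact SG1_pos _ _ _ _ _ _ (mul_self_pos.mpr hne) h hX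

theorem SG1 (hSDD : SDD_stmt) : SG1_stmt := by
  intro ι P Q A B hN hS
  refine ⟨?_, ?_⟩
  · intro x y u hx hy hSS
    rw [Set.disjoint_left]
    intro z hz hz2
    have hA : A u ∈ segment ℝ (P u) (Q u) := by
      obtain ⟨c, -, -, hA, hB⟩ := hSDD ι P Q A B hS u
      exact hA
    have hB : B u ∈ segment ℝ (P u) (Q u) := by
      obtain ⟨c, -, -, hA, hB⟩ := hSDD ι P Q A B hS u
      exact hB
    have h0 : D (P u) (Q u) z = 0 := SG1_z2 _ _ _ _ _ (SG1_z _ _ _ hA) (SG1_z _ _ _ hB) hz2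
    have h1 := SG1_sgn P Q hN u x.1 (Ne.symm hx) _ (SG1_mem P Q A B hSDD hS x).2
    have h2 := SG1_sgn P Q hN u y.1 (Ne.symm hy) _ (SG1_mem P Q A B hSDD hS y).1
    have h3 : 0 < D (P u) (Q u) (P x.1) * D (P u) (Q u) (st A B y) := by
      have h4 : 0 < D (P u) (Q u) (P x.1) * D (P u) (Q u) (P y.1) := hSS
      have hyy : 0 < D (P u) (Q u) (P y.1) * D (P u) (Q u) (P y.1) := by
        apply mul_self_pos.mpr
        intro h5
        rw [h5, mul_zero] at h4
        exact lt_irrefl _ h4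
      have h6 := mul_pos h4 h2
      have e : D (P u) (Q u) (P x.1) * D (P u) (Q u) (P y.1) *
          (D (P u) (Q u) (P y.1) * D (P u) (Q u) (st A B y)) =
          D (P u) (Q u) (P y.1) * D (P u) (Q u) (P y.1) *
            (D (P u) (Q u) (P x.1) * D (P u) (Q u) (st A B y)) := by ring
      rw [e] at h6
      exact (mul_pos_iff_of_pos_left hyy).mp h6
    have h7 := SG1_pos _ _ _ _ _ _ h1 h3 hz
    rw [h0, mul_zero] at h7
    exact lt_irrefl _ h7
  · intro x y hxy z hz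
    refine ⟨?_, ?_⟩
    · intro hz2
      obtain ⟨c, -, -, hA, hB⟩ := hSDD ι P Q A B hS x.1
      have h0 : D (P x.1) (Q x.1) z = 0 :=
        SG1_z2 _ _ _ _ _ (SG1_z _ _ _ hA) (SG1_z _ _ _ hB) hz2
      have h1 : D (P x.1) (Q x.1) (fn A B x) = 0 := SG1_z _ _ _ (SG1_mem P Q A B hSDD hS x).2
      have h2 := SG1_sgn P Q hN x.1 y.1 hxy _ (SG1_mem P Q A B hSDD hS y).1
      obtain ⟨α, β, hα, hβ, h, rfl⟩ := hz
      rw [SG1_aff _ _ _ _ _ _ h, h1, mul_zero, zero_add] at h0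
      have h3 : D (P x.1) (Q x.1) (st A B (x, y).2) ≠ 0 := fun h4 => by
        have h5 : D (P x.1) (Q x.1) (st A B y) = 0 := h4
        rw [h5, mul_zero] at h2
        exact lt_irrefl _ h2
      have hβ0 : β = 0 := (mul_eq_zero.mp h0).resolve_right h3
      have hα1 : α = 1 := by linarith
      rw [hβ0, hα1, one_smul, zero_smul, add_zero]
    · intro hz2
      obtain ⟨c, -, -, hA, hB⟩ := hSDD ι P Q A B hS y.1
      have h0 : D (P y.1) (Q y.1) z = 0 :=
        SG1_z2 _ _ _ _ _ (SG1_z _ _ _ hA) (SG1_z _ _ _ hB) hz2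
      have h1 : D (P y.1) (Q y.1) (st A B y) = 0 := SG1_z _ _ _ (SG1_mem P Q A B hSDD hS y).1
      have h2 := SG1_sgn P Q hN y.1 x.1 (Ne.symm hxy) _ (SG1_mem P Q A B hSDD hS x).2
      obtain ⟨α, β, hα, hβ, h, rfl⟩ := hz
      have h1' : D (P y.1) (Q y.1) (st A B (x, y).2) = 0 := h1
      rw [SG1_aff _ _ _ _ _ _ h, h1', mul_zero, add_zero] at h0
      have h3 : D (P y.1) (Q y.1) (fn A B (x, y).1) ≠ 0 := fun h4 => by
        have h5 : D (P y.1) (Q y.1) (fn A B x) = 0 := h4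
        rw [h5, mul_zero] at h2
        exact lt_irrefl _ h2
      have hα0 : α = 0 := (mul_eq_zero.mp h0).resolve_right h3
      have hβ1 : β = 1 := by linarith
      rw [hα0, hβ1, one_smul, zero_smul, zero_add]

end Pool.Agent.helper14.AV
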